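import Mathlib

set_option autoImplicit false
open MeasureTheory Filter Topology
namespace Pool.Agent.E8helper20.PS

theorem rl (f : ℝ → ℂ) (x1 x2 : ℝ) (h : x1 ≤ x2) :
    Tendsto (fun N : ℕ => ∫ θ in x1..x2, Complex.exp (-(Complex.I * N * (θ : ℂ))) * f θ) atTop (𝓝 0) := by
  have h1 := Real.tendsto_integral_exp_smul_cocompact ((Set.Ioc x1 x2).indicator f)
  have h2 : Tendsto (fun N : ℕ => (N : ℝ) / (2 * Real.pi)) atTop (cocompact ℝ) := by
    have h3 : Tendsto (fun N : ℕ => (N : ℝ) / (2 * Real.pi)) atTop atTop :=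
      tendsto_natCast_atTop_atTop.atTop_div_const (by positivity)
    exact h3.mono_right atTop_le_cocompact
  have h3 := h1.comp h2
  refine h3.congr fun N => ?_
  show (∫ v : ℝ, Real.fourierChar (-(v * ((N : ℝ) / (2 * Real.pi)))) • (Set.Ioc x1 x2).indicator f v) = _
  rw [intervalIntegral.integral_of_le h, ← integral_indicator measurableSet_Ioc]
  refine integral_congr_ae (Eventually.of_forall fun v => ?_)
  show Real.fourierChar (-(v * ((N : ℝ) / (2 * Real.pi)))) • (Set.Ioc x1 x2).indicator f v = _
  by_cases hv : v ∈ Set.Ioc x1 x2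
  · rw [Set.indicator_of_mem hv, Set.indicator_of_mem hv, Circle.smul_def, Real.fourierChar_apply,
      smul_eq_mul]
    congr 2
    push_cast
    field_simp
  · rw [Set.indicator_of_notMem hv, Set.indicator_of_notMem hv, smul_zero]

end Pool.Agent.E8helper20.PS
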